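import Pool.Agent.Helper60.UG.R
import Pool.Agent.Helper57.ED.PoA

/-!
# SO12: tail of the weight
-/

set_option autoImplicit false
open MeasureTheory Set Filter Topology
open Pool.Agent.Helper57.Zeta Pool.Agent.Helper57.LH Pool.Agent.Helper57.ED Pool.Agent.Helper54.LG
open Pool.Agent.Helper69.UG (XX Adm wt VV near far WW RR)

namespace Pool.Agent.Helper49.SO

/-- the kernel in the tail -/
private lemma PW_tail {W T s : ℝ} (hW : 0 < W) (hT : 0 < T) (hs : T / 4 < |s|) :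
    PW W s ≤ 17 * (W / T) * PW T s := by
  unfold PW
  have hs2 : T ^ 2 ≤ 16 * s ^ 2 := by
    have h1 : T ≤ 4 * |s| := by linarith
    have h2 : T ^ 2 ≤ (4 * |s|) ^ 2 := pow_le_pow_left₀ hT.le h1 2
    rw [mul_pow, sq_abs] at h2
    linarith
  have hs0 : 0 < s ^ 2 := by nlinarith
  have hpi := Real.pi_pos
  have e : 17 * (W / T) * (T / (Real.pi * (T ^ 2 + s ^ 2))) = 17 * W / (Real.pi * (T ^ 2 + s ^ 2)) := by
    field_simp
  rw [e, div_le_div_iff₀ (by positivity) (by positivity)]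
  have h3 : T ^ 2 + s ^ 2 ≤ 17 * (W ^ 2 + s ^ 2) := by nlinarith [sq_nonneg W]
  have h4 : W * (Real.pi * (T ^ 2 + s ^ 2)) ≤ W * (Real.pi * (17 * (W ^ 2 + s ^ 2))) := by gcongr
  linarith

/-- SO12 -/
theorem wt_tail : ∃ c0 T0 : ℝ, ∀ T, T0 ≤ T → ∀ c, Adm c0 T c → ∀ v : ℝ, v ^ 2 = c / 100 → ∀ τ : ℝ,
    ∫ t in {t : ℝ | T / 4 < |t - τ|}, wt T c v τ t ≤ T ^ (-(1 / 20000) : ℝ) * VV T c v := by
  obtain ⟨A, c1, T1, h4⟩ := Pool.Agent.Helper60.UG.m4
  obtain ⟨c2, T2, hm⟩ := Pool.Agent.Helper60.UG.wmass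
  obtain ⟨c3, T3, hr⟩ := Pool.Agent.Helper60.UG.rr_bd
  -- growth
  have hl : Tendsto (fun T : ℝ => Real.log (Real.log T)) atTop atTop := Real.tendsto_log_atTop.comp Real.tendsto_log_atTop
  have hp : Tendsto (fun T : ℝ => T ^ (1 / 20000 : ℝ)) atTop atTop := tendsto_rpow_atTop (by norm_num)
  obtain ⟨T4, hT4⟩ := eventually_atTop.mp ((hl.eventually_ge_atTop (|A| * 1000000 + 1)).and
    ((hp.eventually_ge_atTop 18).and (eventually_ge_atTop 16)))
  refine ⟨max 0 (max c1 (max c2 c3)), max T1 (max T2 (max T3 T4)), fun T hT c hc v hv τ => ?_⟩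
  have hTa : T1 ≤ T := (le_max_left _ _).trans hT
  have hTb : T2 ≤ T := (le_max_left _ _).trans ((le_max_right _ _).trans hT)
  have hTc : T3 ≤ T := (le_max_left _ _).trans ((le_max_right _ _).trans ((le_max_right _ _).trans hT))
  have hTd : T4 ≤ T := (le_max_right _ _).trans ((le_max_right _ _).trans ((le_max_right _ _).trans hT))
  obtain ⟨g1, g2, g3⟩ := hT4 T hTd
  have hc0 : 0 ≤ c := (le_max_left _ _).trans hc.1
  have ha1 : Adm c1 T c := ⟨((le_max_left _ _).trans (le_max_right _ _)).trans hc.1, hc.2⟩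
  have ha2 : Adm c2 T c := ⟨((le_max_left _ _).trans ((le_max_right _ _).trans (le_max_right _ _))).trans hc.1, hc.2⟩
  have ha3 : Adm c3 T c := ⟨((le_max_right _ _).trans ((le_max_right _ _).trans (le_max_right _ _))).trans hc.1, hc.2⟩
  have hT0 : 0 < T := by linarith
  have hL0 : 0 < Real.log T := Real.log_pos (by linarith)
  obtain ⟨hi4, hb4⟩ := h4 T hTa c ha1 v hv τ
  obtain ⟨hiw, -⟩ := hm T hTb c ha2 v hv τ
  have hV : 1 ≤ VV T c v := (hr T hTc c ha3 v hv 1).2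
  have hV0 : 0 < VV T c v := by linarith
  have hWp : 0 < WW T := by unfold WW; positivity
  set θ : ℝ := T ^ (1 / 8192 : ℝ) with hθ
  have hθ0 : 0 < θ := by rw [hθ]; positivity
  -- pointwise bound
  have hpt : ∀ t ∈ {t : ℝ | T / 4 < |t - τ|}, wt T c v τ t ≤ (17 * θ * VV T c v * (WW T / T) / 2) * PW T (t - τ) +
      1 / (2 * θ * VV T c v) * (PW (WW T) (t - τ) * ‖RR T c v t‖ ^ 4) := by
    intro t ht
    have h1 := PW_tail hWp hT0 ht
    have h2 : 0 < PW (WW T) (t - τ) := PW_pos hWp _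
    have h3 : ‖RR T c v t‖ ^ 2 ≤ θ * VV T c v / 2 + 1 / (2 * θ * VV T c v) * ‖RR T c v t‖ ^ 4 := by
      have h5 : 0 < θ * VV T c v := by positivity
      have h6 : 0 ≤ (θ * VV T c v - ‖RR T c v t‖ ^ 2) ^ 2 / (2 * (θ * VV T c v)) := by positivity
      have h7 : (θ * VV T c v - ‖RR T c v t‖ ^ 2) ^ 2 / (2 * (θ * VV T c v)) =
          θ * VV T c v / 2 + 1 / (2 * θ * VV T c v) * ‖RR T c v t‖ ^ 4 - ‖RR T c v t‖ ^ 2 := by
        field_simp
        ring
      linarith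
    unfold wt
    calc PW (WW T) (t - τ) * ‖RR T c v t‖ ^ 2 ≤ PW (WW T) (t - τ) * (θ * VV T c v / 2 + 1 / (2 * θ * VV T c v) * ‖RR T c v t‖ ^ 4) :=
          mul_le_mul_of_nonneg_left h3 h2.le
      _ = (θ * VV T c v / 2) * PW (WW T) (t - τ) + 1 / (2 * θ * VV T c v) * (PW (WW T) (t - τ) * ‖RR T c v t‖ ^ 4) := by ring
      _ ≤ (θ * VV T c v / 2) * (17 * (WW T / T) * PW T (t - τ)) + 1 / (2 * θ * VV T c v) * (PW (WW T) (t - τ) * ‖RR T c v t‖ ^ 4) := by
          gcongr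
      _ = _ := by ring
  obtain ⟨hPi, hP1⟩ := integral_PW (W := T) hT0
  have hPi' : Integrable (fun t => PW T (t - τ)) := hPi.comp_sub_right τ
  have hP1' : ∫ t, PW T (t - τ) = 1 := by rw [integral_sub_right_eq_self (fun t => PW T t) τ, hP1]
  have hmeas : MeasurableSet {t : ℝ | T / 4 < |t - τ|} := measurableSet_lt measurable_const (by fun_prop)
  have hG : Integrable (fun t => (17 * θ * VV T c v * (WW T / T) / 2) * PW T (t - τ) +
      1 / (2 * θ * VV T c v) * (PW (WW T) (t - τ) * ‖RR T c v t‖ ^ 4)) := (hPi'.const_mul _).add (hi4.const_mul _)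
  have hstep : ∫ t in {t : ℝ | T / 4 < |t - τ|}, wt T c v τ t ≤ (17 * θ * VV T c v * (WW T / T) / 2) +
      1 / (2 * θ * VV T c v) * (Real.exp (A * c) * VV T c v ^ 2) := by
    calc ∫ t in {t : ℝ | T / 4 < |t - τ|}, wt T c v τ t ≤ ∫ t in {t : ℝ | T / 4 < |t - τ|}, ((17 * θ * VV T c v * (WW T / T) / 2) * PW T (t - τ) +
          1 / (2 * θ * VV T c v) * (PW (WW T) (t - τ) * ‖RR T c v t‖ ^ 4)) :=
          setIntegral_mono_on hiw.integrableOn hG.integrableOn hmeas hpt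
      _ ≤ ∫ t, ((17 * θ * VV T c v * (WW T / T) / 2) * PW T (t - τ) +
          1 / (2 * θ * VV T c v) * (PW (WW T) (t - τ) * ‖RR T c v t‖ ^ 4)) := by
          refine setIntegral_le_integral hG (ae_of_all _ fun t => ?_)
          have h1 : 0 < PW T (t - τ) := PW_pos hT0 _
          have h2 : 0 < PW (WW T) (t - τ) := PW_pos hWp _
          simp only [Pi.zero_apply]
          positivity
      _ = (17 * θ * VV T c v * (WW T / T) / 2) + 1 / (2 * θ * VV T c v) * ∫ t, (PW (WW T) (t - τ) * ‖RR T c v t‖ ^ 4) := by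
          rw [integral_add (hPi'.const_mul _) (hi4.const_mul _), integral_const_mul, integral_const_mul, hP1', mul_one]
      _ ≤ _ := by gcongr
  refine hstep.trans ?_
  -- the exponents
  have hAc : A * c ≤ Real.log T / 1000000 := by
    have h1 : c * (|A| * 1000000 + 1) ≤ c * Real.log (Real.log T) := mul_le_mul_of_nonneg_left g1 hc0
    have h2 := hc.2
    have h3 : A * c ≤ |A| * c := mul_le_mul_of_nonneg_right (le_abs_self A) hc0
    rw [le_div_iff₀ (by norm_num)]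
    nlinarith [mul_nonneg (abs_nonneg A) hc0]
  have hexp : Real.exp (A * c) ≤ T ^ (1 / 1000000 : ℝ) := by
    rw [Real.rpow_def_of_pos hT0]
    apply Real.exp_le_exp.mpr
    linarith
  have hWT : WW T / T = T ^ (-(1 / 4096) : ℝ) := by
    unfold WW
    nth_rewrite 2 [← Real.rpow_one T]
    rw [← Real.rpow_sub hT0]
    norm_num
  have hT1 : (1 : ℝ) ≤ T := by linarith
  have e1 : 17 * θ * VV T c v * (WW T / T) / 2 = 17 / 2 * T ^ (-(1 / 8192) : ℝ) * VV T c v := by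
    rw [hWT, hθ]
    have : T ^ (1 / 8192 : ℝ) * T ^ (-(1 / 4096) : ℝ) = T ^ (-(1 / 8192) : ℝ) := by
      rw [← Real.rpow_add hT0]
      norm_num
    linear_combination (17 / 2 * VV T c v) * this
  have e2 : 1 / (2 * θ * VV T c v) * (Real.exp (A * c) * VV T c v ^ 2) ≤ 1 / 2 * T ^ (1 / 1000000 - 1 / 8192 : ℝ) * VV T c v := by
    have h1 : 1 / (2 * θ * VV T c v) * (Real.exp (A * c) * VV T c v ^ 2) = 1 / 2 * (Real.exp (A * c) / θ) * VV T c v := by
      field_simp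
    rw [h1]
    have h2 : Real.exp (A * c) / θ ≤ T ^ (1 / 1000000 - 1 / 8192 : ℝ) := by
      rw [Real.rpow_sub hT0, hθ]
      gcongr
    gcongr
  rw [e1]
  have h18 : 18 ≤ T ^ (1 / 20000 : ℝ) := g2
  have hb1 : 17 / 2 * T ^ (-(1 / 8192) : ℝ) + 1 / 2 * T ^ (1 / 1000000 - 1 / 8192 : ℝ) ≤ T ^ (-(1 / 20000) : ℝ) := by
    have h1 : T ^ (-(1 / 8192) : ℝ) ≤ T ^ (-(2 / 20000) : ℝ) := Real.rpow_le_rpow_of_exponent_le hT1 (by norm_num)
    have h2 : T ^ (1 / 1000000 - 1 / 8192 : ℝ) ≤ T ^ (-(2 / 20000) : ℝ) := Real.rpow_le_rpow_of_exponent_le hT1 (by norm_num)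
    have h3 : T ^ (-(2 / 20000) : ℝ) * T ^ (1 / 20000 : ℝ) = T ^ (-(1 / 20000) : ℝ) := by
      rw [← Real.rpow_add hT0]
      norm_num
    have h4 : 0 < T ^ (-(2 / 20000) : ℝ) := Real.rpow_pos_of_pos hT0 _
    nlinarith
  calc 17 / 2 * T ^ (-(1 / 8192) : ℝ) * VV T c v + 1 / (2 * θ * VV T c v) * (Real.exp (A * c) * VV T c v ^ 2) ≤
      17 / 2 * T ^ (-(1 / 8192) : ℝ) * VV T c v + 1 / 2 * T ^ (1 / 1000000 - 1 / 8192 : ℝ) * VV T c v := by linarith
    _ = (17 / 2 * T ^ (-(1 / 8192) : ℝ) + 1 / 2 * T ^ (1 / 1000000 - 1 / 8192 : ℝ)) * VV T c v := by ring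
    _ ≤ T ^ (-(1 / 20000) : ℝ) * VV T c v := by gcongr

end Pool.Agent.Helper49.SO
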